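import Pool.Agent.V11294.Perm.D

namespace Pool.Agent.Results.MP_73edb1_nt.PermanentModSquare

/-- For every odd prime `p`, the permanent of the `p × p` matrix `[i - l + δ_{il}]`
is congruent to `4p + 1` modulo `p ^ 2`. -/
theorem result (p : ℕ) (hp : p.Prime) (hp2 : p ≠ 2) :
    (Matrix.of fun i l : Fin p =>
      (((i : ℕ) : ℤ) + 1) - (((l : ℕ) : ℤ) + 1) + if i = l then (1 : ℤ) else 0).permanent ≡
      4 * p + 1 [ZMOD (p : ℤ) ^ 2] := by
  haveI : Fact p.Prime := ⟨hp⟩
  have h := Pool.Agent.V11294.Perm.main p hp2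
  have e : (Matrix.of fun i l : Fin p =>
      (((i : ℕ) : ℤ) + 1) - (((l : ℕ) : ℤ) + 1) + if i = l then (1 : ℤ) else 0) =
      (Matrix.of fun i l : Fin p => Pool.Agent.V11294.Perm.xx p i - Pool.Agent.V11294.Perm.xx p l +
        if i = l then (1 : ℤ) else 0) := by
    ext i l
    simp only [Matrix.of_apply, Pool.Agent.V11294.Perm.xx]
    ring
  rw [e]
  exact h

end Pool.Agent.Results.MP_73edb1_nt.PermanentModSquare
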